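import Pool.Agent.DBX.Assembly

set_option autoImplicit false

namespace Pool.Agent.Results.MP_2c751f_ag.HVectorQ1

open MvPolynomial Pool.Agent.DBX

universe u

/-- Q1: nonnegativity of `h_0, …, h_r` for standard graded algebras over a field of
characteristic zero which satisfy Serre's condition (S_r) and are Du Bois in codimension
`r - 2`. -/
theorem result : ∀ (k : Type u) [Field k] [CharZero k] (n : ℕ) (I : Ideal (Pol k n)),
    HomIdeal I → I ≠ ⊤ → ∀ r : ℕ, 1 ≤ r → SerreCond (Pol k n ⧸ I) r →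
    (2 ≤ r → DuBoisInCodim I (r - 2)) →
    ∀ (d : ℕ) (h : Polynomial ℤ), ringKrullDim (Pol k n ⧸ I) = d →
      (PowerSeries.mk (fun u => (hilb I u : ℤ))) * (1 - PowerSeries.X) ^ d =
        (h : PowerSeries ℤ) →
      ∀ i ≤ r, 0 ≤ h.coeff i := by
  intro k _ _ n I hI hI1 r hr hS hD
  exact (MAIN k n I hI hI1 r hr hS hD).1

end Pool.Agent.Results.MP_2c751f_ag.HVectorQ1
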