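import Pool.Agent.DBX.Assembly

set_option autoImplicit false

namespace Pool.Agent.Results.MP_2c751f_ag.RegularityQ2

open MvPolynomial Pool.Agent.DBX

universe u

/-- Q2: if moreover the Castelnuovo-Mumford regularity is less than `r`, the algebra is
Cohen–Macaulay. -/
theorem result : ∀ (k : Type u) [Field k] [CharZero k] (n : ℕ) (I : Ideal (Pol k n)),
    HomIdeal I → I ≠ ⊤ → ∀ r : ℕ, 1 ≤ r → SerreCond (Pol k n ⧸ I) r →
    (2 ≤ r → DuBoisInCodim I (r - 2)) →
    (∀ (j : ℕ) (m : ℤ), (r : ℤ) ≤ j + m → LCZero I j m) → CM (Pol k n ⧸ I) := by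
  intro k _ _ n I hI hI1 r hr hS hD
  exact (MAIN k n I hI hI1 r hr hS hD).2

end Pool.Agent.Results.MP_2c751f_ag.RegularityQ2
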